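import Pool.Agent.Helper890.Cov.All

/-!
# The covariogram problem for convex bodies of class `C^2_+`

Two convex bodies of class `C^2_+` in `ℝⁿ`, `n ≥ 2`, with the same covariogram are translates of
each other or of each other's reflections.
-/

namespace Pool.Agent.Results.MP_fb1ba4_gt.CovariogramDeterminesC2Plus

open MeasureTheory Set Topology

/-- A convex body: a compact convex set with nonempty interior. -/
def IsConvexBody {n : ℕ} (K : Set (EuclideanSpace ℝ (Fin n))) : Prop :=
  IsCompact K ∧ Convex ℝ K ∧ (interior K).Nonempty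

/-- `K` is of class `C^2_+`: its boundary is a `C^2` hypersurface with nonvanishing Gauss
curvature.  Near every boundary point `p` the set `K` is `{ρ ≤ 0}` with a function `ρ` which is
`C^2` at `p` and has nonzero derivative there, and the second derivative of `ρ` at `p`, restricted
to the tangent hyperplane `{w : dρ(p) w = 0}` (a nonzero multiple of the second fundamental form
of the boundary at `p`), is nondegenerate.  For a convex body the second fundamental form is
semidefinite, so this says that the Gauss curvature is strictly positive at every point. -/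
def IsC2Plus {n : ℕ} (K : Set (EuclideanSpace ℝ (Fin n))) : Prop :=
  ∀ p ∈ frontier K, ∃ ρ : EuclideanSpace ℝ (Fin n) → ℝ,
    ContDiffAt ℝ 2 ρ p ∧ fderiv ℝ ρ p ≠ 0 ∧ (∀ᶠ x in 𝓝 p, x ∈ K ↔ ρ x ≤ 0) ∧
    ∀ w, w ≠ 0 → fderiv ℝ ρ p w = 0 →
      ∃ w', fderiv ℝ ρ p w' = 0 ∧ fderiv ℝ (fderiv ℝ ρ) p w w' ≠ 0

/-- The covariogram `g_K(x) = vol_n (K ∩ (K + x))`. -/
noncomputable def covariogram {n : ℕ} (K : Set (EuclideanSpace ℝ (Fin n)))
    (x : EuclideanSpace ℝ (Fin n)) : ℝ :=
  (volume (K ∩ (fun y => y + x) '' K)).toReal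

/-- Sanity check: the closed unit ball is a convex body of class `C^2_+`. -/
theorem closedBall_isC2Plus (n : ℕ) (hn : 1 ≤ n) :
    IsConvexBody (Metric.closedBall (0 : EuclideanSpace ℝ (Fin n)) 1) ∧
      IsC2Plus (Metric.closedBall (0 : EuclideanSpace ℝ (Fin n)) 1) := by
  refine ⟨⟨isCompact_closedBall _ _, convex_closedBall _ _, ?_⟩,
    Pool.Agent.Helper890.Cov.JBall.stBall n hn⟩
  exact ⟨0, mem_interior_iff_mem_nhds.2 (Metric.closedBall_mem_nhds _ one_pos)⟩

/-- **Covariogram problem for `C^2_+` bodies.**  For `n ≥ 2`, convex bodies `H, K ⊆ ℝⁿ` of class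
`C^2_+` with `g_H = g_K` satisfy `H = K + z` or `H = -K + z` for some `z ∈ ℝⁿ`. -/
theorem result (n : ℕ) (hn : 2 ≤ n) (H K : Set (EuclideanSpace ℝ (Fin n)))
    (hH : IsConvexBody H) (hK : IsConvexBody K) (hH2 : IsC2Plus H) (hK2 : IsC2Plus K)
    (hg : ∀ x, covariogram H x = covariogram K x) :
    ∃ z : EuclideanSpace ℝ (Fin n), H = (fun x => x + z) '' K ∨ H = (fun x => -x + z) '' K :=
  Pool.Agent.Helper890.Cov.fin n hn H K hH.1 hH.2.1 hH.2.2 hK.1 hK.2.1 hK.2.2 hH2 hK2 hg

end Pool.Agent.Results.MP_fb1ba4_gt.CovariogramDeterminesC2Plus
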